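import Pool.Agent.Helper54.PW.Defs

/-!
# Basic facts on places (module PW-B1)
-/

set_option autoImplicit false
open scoped Pointwise

namespace Pool.Agent.Helper54.PW

namespace Places1

open Polynomial IntermediateField.algebraAdjoinAdjoin

/-- elements of `F` integral over a subring contained in the valuation ring `A` are in `A` -/
theorem mem_of_integral {F R : Type} [Field F] [CommRing R] [Algebra R F] (A : ValuationSubring F)
    (hR : ∀ r : R, algebraMap R F r ∈ A) {z : F} (hz : IsIntegral R z) : z ∈ A := by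
  obtain ⟨p, hm, hp⟩ := hz
  let f : R →+* A := (algebraMap R F).codRestrict A.toSubring hR
  have h1 : IsIntegral A z := by
    refine ⟨p.map f, hm.map f, ?_⟩
    rw [eval₂_map]
    exact hp
  have h2 := (ValuationSubring.integer_valuation A)
  have h3 : A.valuation.Integers A := by
    refine ⟨Subtype.coe_injective, fun r => ?_, fun r hr => ?_⟩
    · exact A.valuation_le_one r
    · exact ⟨⟨r, (A.valuation_le_one_iff r).1 hr⟩, rfl⟩
  exact (A.valuation_le_one_iff z).1 (h3.isIntegral_iff_v_le_one.1 h1)

/-- elements algebraic over the algebraically closed field `k` are constants -/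
theorem exists_const {k F : Type} [Field k] [IsAlgClosed k] [Field F] [Algebra k F] {x : F}
    (hx : IsAlgebraic k x) : ∃ c : k, algebraMap k F c = x := by
  have hi : IsIntegral k x := hx.isIntegral
  exact RingHom.mem_range.1 (minpoly.mem_range_of_degree_eq_one k x
    (IsAlgClosed.degree_eq_one_of_irreducible k (minpoly.irreducible hi)))

/-- every element of `F` is integral over `k[t]` up to a nonzero polynomial in `t` -/
theorem exists_poly {k F : Type} [Field k] [Field F] [Algebra k F] (hF : FF k F)
    (A : ValuationSubring F) (hk : ∀ c : k, algebraMap k F c ∈ A) {t : F} (ht : t ∈ A)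
    (htr : Transcendental k t) (y : F) : ∃ c : k[X], c ≠ 0 ∧ aeval t c * y ∈ A := by
  have h1 := hF t y htr
  have h2 : IsAlgebraic (Algebra.adjoin k {t}) y := h1.restrictScalars (Algebra.adjoin k {t})
  obtain ⟨r, hr, hint⟩ := h2.exists_integral_multiple
  obtain ⟨c, hc⟩ : ∃ c : k[X], aeval t c = (r : F) := by
    have h3 : (r : F) ∈ (aeval (R := k) t).range := by
      rw [← Algebra.adjoin_singleton_eq_range_aeval]
      exact r.2
    exact h3
  refine ⟨c, ?_, ?_⟩
  · rintro rfl
    apply hr
    apply Subtype.coe_injective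
    change (r : F) = ((0 : Algebra.adjoin k {t}) : F)
    rw [← hc, map_zero]
    rfl
  · have h4 : ∀ r : Algebra.adjoin k {t}, algebraMap (Algebra.adjoin k {t}) F r ∈ A := by
      rintro ⟨r, this⟩
      change r ∈ A
      induction this using Algebra.adjoin_induction with
      | mem x hx => rw [Set.mem_singleton_iff.1 hx]; exact ht
      | algebraMap c => exact hk c
      | add x y _ _ hx hy => exact A.add_mem _ _ hx hy
      | mul x y _ _ hx hy => exact A.mul_mem _ _ hx hy
    have h5 := mem_of_integral A h4 hint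
    rw [Algebra.smul_def] at h5
    change (r : F) * y ∈ A at h5
    rwa [← hc] at h5

theorem val_const {k F : Type} [Field k] [Field F] [Algebra k F] (A : ValuationSubring F)
    (hk : ∀ c : k, algebraMap k F c ∈ A) {c : k} (hc : c ≠ 0) :
    A.valuation (algebraMap k F c) = 1 := by
  apply le_antisymm ((A.valuation_le_one_iff _).2 (hk c))
  have h1 := (A.valuation_le_one_iff _).2 (hk c⁻¹)
  rw [map_inv₀, map_inv₀] at h1
  have h2 : 0 < A.valuation (algebraMap k F c) :=
    zero_lt_iff.2 ((_root_.map_ne_zero _).2 ((_root_.map_ne_zero _).2 hc))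
  exact (inv_le_one₀ h2).1 h1

end Places1

open Places1 Polynomial

theorem ff_of_algebraic (k F : Type) [Field k] [Field F] [Algebra k F] [Algebra (RatFunc k) F]
    [IsScalarTower k (RatFunc k) F] [Algebra.IsAlgebraic (RatFunc k) F] : FF k F := by
  intro x y hx
  have h1 : Algebra.trdeg k k[X] = 1 := Polynomial.trdeg_of_isDomain
  have : Algebra.IsAlgebraic k[X] (RatFunc k) := IsLocalization.isAlgebraic _ (nonZeroDivisors k[X])
  have h2 : Algebra.trdeg k[X] (RatFunc k) = 0 := trdeg_eq_zero
  have h3 : Algebra.trdeg (RatFunc k) F = 0 := trdeg_eq_zero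
  have h4 := trdeg_add_eq k k[X] (A := RatFunc k)
  have h5 := trdeg_add_eq k (RatFunc k) (A := F)
  have h6 : Algebra.trdeg k F ≤ 1 := by
    rw [← h5, h3, ← h4, h1, h2]; simp
  have hind : AlgebraicIndependent k (fun _ : Unit => x) :=
    algebraicIndependent_unique_type_iff.2 hx
  have hb := hind.isTranscendenceBasis_of_trdeg_le_of_finite (by simpa using h6)
  have h7 := hb.isAlgebraic_field
  have h8 : Set.range (fun _ : Unit => x) = {x} := Set.range_const
  rw [h8] at h7
  exact h7.isAlgebraic y

theorem arch {k F : Type} [Field k] [IsAlgClosed k] [Field F] [Algebra k F] (hF : FF k F)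
    (A : ValuationSubring F) (hk : ∀ c : k, algebraMap k F c ∈ A) (x : F) (hx : x ∈ A.nonunits)
    (hx0 : x ≠ 0) (y : F) : ∃ N : ℕ, ∀ n ≥ N, x ^ n * y ∈ A.nonunits := by
  rw [ValuationSubring.mem_nonunits_iff] at hx
  have htr : Transcendental k x := by
    intro halg
    obtain ⟨c, rfl⟩ := exists_const halg
    have hc : c ≠ 0 := by rintro rfl; exact hx0 (map_zero _)
    rw [val_const A hk hc] at hx
    exact lt_irrefl _ hx
  have hxA : x ∈ A := (A.valuation_le_one_iff x).1 hx.le
  obtain ⟨c, hc, hcy⟩ := exists_poly hF A hk hxA htr y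
  obtain ⟨u, hu, hu'⟩ := exists_eq_pow_rootMultiplicity_mul_and_not_dvd c hc 0
  set e := rootMultiplicity 0 c with he
  have hu0 : u.eval 0 ≠ 0 := fun h => hu' (dvd_iff_isRoot.2 h)
  have hux : A.valuation (aeval x u) = 1 := by
    obtain ⟨w, hw⟩ : X ∣ u - C (u.eval 0) := by
      rw [X_dvd_iff]
      simp [coeff_zero_eq_eval_zero]
    have h1 : u = C (u.eval 0) + X * w := by rw [← hw]; ring
    have hwA : aeval x w ∈ A := by
      rw [aeval_eq_sum_range]
      refine sum_mem fun i _ => ?_
      rw [Algebra.smul_def]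
      exact A.mul_mem _ _ (hk _) (pow_mem hxA i)
    have h2 : A.valuation (x * aeval x w) < 1 := by
      rw [map_mul]
      exact mul_lt_one_of_lt_of_le hx ((A.valuation_le_one_iff _).2 hwA)
    rw [h1, map_add, map_mul, aeval_C, aeval_X, A.valuation.map_add_eq_of_lt_left]
    · exact val_const A hk hu0
    · rw [val_const A hk hu0]; exact h2
  have hxy : A.valuation (x ^ e * y) ≤ 1 := by
    have h1 := (A.valuation_le_one_iff _).2 hcy
    have h3 : aeval x c = x ^ e * aeval x u := by
      rw [hu, map_mul, map_pow, map_sub, aeval_X, C_0, map_zero, sub_zero]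
    rw [h3, map_mul, map_mul, hux, mul_one, ← map_mul] at h1
    exact h1
  refine ⟨e + 1, fun n hn => ?_⟩
  rw [ValuationSubring.mem_nonunits_iff]
  obtain ⟨j, rfl⟩ := Nat.exists_eq_add_of_le hn
  have h1 : x ^ (e + 1 + j) * y = x ^ (j + 1) * (x ^ e * y) := by ring
  rw [h1, map_mul, map_pow]
  exact mul_lt_one_of_lt_of_le (pow_lt_one₀ zero_le hx (Nat.succ_ne_zero j)) hxy

theorem residue {k F : Type} [Field k] [IsAlgClosed k] [Field F] [Algebra k F] (hF : FF k F)
    (A : ValuationSubring F) (hA : IsPlace k A) (a : F) (ha : a ∈ A) :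
    ∃ c : k, a - algebraMap k F c ∈ A.nonunits := by
  by_cases halg : IsAlgebraic k a
  · obtain ⟨c, rfl⟩ := exists_const halg
    exact ⟨c, by rw [sub_self, ValuationSubring.mem_nonunits_iff]; simp⟩
  by_contra hcon
  push Not at hcon
  have h1 : ∀ c : k, A.valuation (a - algebraMap k F c) = 1 := by
    intro c
    refine le_antisymm ((A.valuation_le_one_iff _).2 (A.sub_mem ha (hA.2 c))) ?_
    have := hcon c
    rwa [ValuationSubring.mem_nonunits_iff, not_lt] at this
  apply hA.1
  rw [eq_top_iff]
  intro y _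
  obtain ⟨c, hc, hcy⟩ := exists_poly hF A hA.2 ha halg y
  have h2 : A.valuation (aeval a c) = 1 := by
    have hs := IsAlgClosed.splits c
    rw [hs.eq_prod_roots]
    rw [map_mul, map_mul, aeval_C, val_const A hA.2 (leadingCoeff_ne_zero.2 hc), one_mul,
      map_multiset_prod, map_multiset_prod, Multiset.map_map, Multiset.map_map]
    apply Multiset.prod_eq_one
    intro z hz
    obtain ⟨r, -, rfl⟩ := Multiset.mem_map.1 hz
    simpa using h1 r
  rw [← A.valuation_le_one_iff, map_mul, h2, one_mul] at hcy
  exact (A.valuation_le_one_iff y).1 hcy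

theorem place_maximal {k F : Type} [Field k] [IsAlgClosed k] [Field F] [Algebra k F] (hF : FF k F)
    (A A' : ValuationSubring F) (hA : IsPlace k A) (hA' : IsPlace k A') (h : A ≤ A') : A = A' := by
  apply le_antisymm h
  intro a ha
  by_contra haA
  have ha0 : a ≠ 0 := by rintro rfl; exact haA A.zero_mem
  have hx : a⁻¹ ∈ A.nonunits := by
    rw [ValuationSubring.mem_nonunits_iff, map_inv₀]
    rw [← A.valuation_le_one_iff, not_le] at haA
    exact inv_lt_one_of_one_lt₀ haA
  apply hA'.1
  rw [eq_top_iff]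
  intro y _
  obtain ⟨N, hN⟩ := arch hF A hA.2 a⁻¹ hx (inv_ne_zero ha0) y
  have h1 := hN N le_rfl
  rw [ValuationSubring.mem_nonunits_iff] at h1
  have h2 : a⁻¹ ^ N * y ∈ A' := h ((A.valuation_le_one_iff _).1 h1.le)
  have h3 := A'.mul_mem _ _ (pow_mem ha N) h2
  rwa [inv_pow, ← mul_assoc, mul_inv_cancel₀ (pow_ne_zero N ha0), one_mul] at h3

theorem exists_place_extension {k L Ω : Type} [Field k] [Field L] [Field Ω] [Algebra k L]
    [Algebra k Ω] [Algebra L Ω] [IsScalarTower k L Ω] (A : ValuationSubring L) (hA : IsPlace k A) :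
    ∃ A' : ValuationSubring Ω, IsPlace k A' ∧ A'.comap (algebraMap L Ω) = A := by
  obtain ⟨A', h, hloc⟩ := IsLocalRing.exists_factor_valuationRing
    (R := A) ((algebraMap L Ω).comp A.subtype)
  have hcomap : A'.comap (algebraMap L Ω) = A := by
    apply le_antisymm
    · intro x hx
      by_contra hxA
      have hx0 : x ≠ 0 := by rintro rfl; exact hxA A.zero_mem
      have hinv : x⁻¹ ∈ A := (A.mem_or_inv_mem x).resolve_left hxA
      have hu : IsUnit (((algebraMap L Ω).comp A.subtype).codRestrict A'.toSubring h ⟨x⁻¹, hinv⟩) := by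
        refine isUnit_iff_exists_inv.2 ⟨⟨algebraMap L Ω x, hx⟩, ?_⟩
        apply Subtype.coe_injective
        change algebraMap L Ω x⁻¹ * algebraMap L Ω x = 1
        rw [← map_mul, inv_mul_cancel₀ hx0, map_one]
      have hu' := hloc.1 _ hu
      obtain ⟨z, hz⟩ := isUnit_iff_exists_inv.1 hu'
      have hz' : x⁻¹ * (z : L) = 1 := congrArg Subtype.val hz
      have : (z : L) = x := by
        field_simp at hz'
        exact hz'
      exact hxA (this ▸ z.2)
    · intro x hx
      exact h ⟨x, hx⟩
  refine ⟨A', ⟨?_, fun c => ?_⟩, hcomap⟩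
  · rintro rfl
    apply hA.1
    rw [← hcomap]
    rfl
  · rw [IsScalarTower.algebraMap_apply k L Ω]
    exact h ⟨algebraMap k L c, hA.2 c⟩

end Pool.Agent.Helper54.PW
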