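import Pool.Agent.Helper18.PW.Places1

/-!
# Weak approximation for places (module PW-B2)
-/

set_option autoImplicit false
open scoped Pointwise

namespace Pool.Agent.Helper54.PW

namespace WApprox

variable {k F : Type} [Field k] [IsAlgClosed k] [Field F] [Algebra k F]

/-- if `x` is small at `A` then `1 + x` is a unit -/
theorem val_one_add (A : ValuationSubring F) {x : F} (hx : A.valuation x < 1) :
    A.valuation (1 + x) = 1 := by
  exact A.valuation.map_one_add_of_lt hx

theorem ne_zero_of_big (A : ValuationSubring F) {x : F} (hx : 1 < A.valuation x) : x ≠ 0 := by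
  rintro rfl
  simp at hx

theorem inv_small (A : ValuationSubring F) {x : F} (hx : 1 < A.valuation x) :
    A.valuation x⁻¹ < 1 := by
  rw [map_inv₀]
  exact inv_lt_one_of_one_lt₀ hx

theorem pow_small (A : ValuationSubring F) {x : F} (hx : A.valuation x < 1) {n : ℕ} (hn : n ≠ 0) :
    A.valuation (x ^ n) < 1 := by
  rw [map_pow]
  exact pow_lt_one₀ zero_le hx hn

/-- `X^n / (1 + X^n)` is a unit at places where `X` is big -/
theorem frac_big (A : ValuationSubring F) {x : F} (hx : 1 < A.valuation x) {n : ℕ} (hn : n ≠ 0) :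
    A.valuation (x ^ n / (1 + x ^ n)) = 1 ∧ 1 + x ^ n ≠ 0 ∧
      ∀ y, A.valuation ((x ^ n / (1 + x ^ n) - 1) * y) = A.valuation ((x⁻¹) ^ n * y) := by
  have hx0 := ne_zero_of_big A hx
  have hxn : x ^ n ≠ 0 := pow_ne_zero n hx0
  have h1 : A.valuation (1 + (x⁻¹) ^ n) = 1 := val_one_add A (pow_small A (inv_small A hx) hn)
  have h2 : 1 + (x⁻¹) ^ n ≠ 0 := by
    intro h
    rw [h, map_zero] at h1
    exact zero_ne_one h1
  have h3 : 1 + x ^ n = x ^ n * (1 + (x⁻¹) ^ n) := by
    rw [mul_add, mul_one, inv_pow, mul_inv_cancel₀ hxn, add_comm]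
  have h4 : 1 + x ^ n ≠ 0 := by rw [h3]; exact mul_ne_zero hxn h2
  refine ⟨?_, h4, fun y => ?_⟩
  · rw [map_div₀, h3, map_mul, h1, mul_one]
    exact div_self ((map_ne_zero _).2 hxn)
  · have h5 : x ^ n / (1 + x ^ n) - 1 = -(1 + x ^ n)⁻¹ := by
      field_simp
      ring
    rw [h5, neg_mul, Valuation.map_neg, map_mul, map_mul, h3, mul_inv, map_mul, map_inv₀ _ (1 + _),
      h1, inv_one, mul_one, inv_pow]

theorem frac_small (A : ValuationSubring F) {x : F} (hx : A.valuation x < 1) {n : ℕ} (hn : n ≠ 0)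
    (y : F) : A.valuation (x ^ n / (1 + x ^ n) * y) = A.valuation (x ^ n * y) := by
  rw [map_mul, map_div₀, val_one_add A (pow_small A hx hn), div_one, map_mul]

include k in
theorem step1 (hF : FF k F) (A A' : ValuationSubring F) (hA : IsPlace k A) (hA' : IsPlace k A')
    (h : A ≠ A') : ∃ x, 1 < A.valuation x ∧ A'.valuation x < 1 := by
  have h1 : ¬ A ≤ A' := fun h' => h (place_maximal hF A A' hA hA' h')
  have h2 : ¬ A' ≤ A := fun h' => h (place_maximal hF A' A hA' hA h').symm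
  obtain ⟨a, ha, ha'⟩ := SetLike.not_le_iff_exists.1 h1
  obtain ⟨b, hb, hb'⟩ := SetLike.not_le_iff_exists.1 h2
  rw [← ValuationSubring.valuation_le_one_iff] at ha ha' hb hb'
  rw [not_le] at ha' hb'
  have ha0 := ne_zero_of_big A' ha'
  refine ⟨b / a, ?_, ?_⟩
  · rw [map_div₀, one_lt_div₀ (zero_lt_iff.2 ((map_ne_zero _).2 ha0))]
    exact ha.trans_lt hb'
  · rw [map_div₀, div_lt_one₀ (zero_lt_iff.2 ((map_ne_zero _).2 ha0))]
    exact hb.trans_lt ha'

theorem arch' (hF : FF k F) (A : ValuationSubring F) (hA : IsPlace k A) {x : F}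
    (hx : A.valuation x < 1) (hx0 : x ≠ 0) (y : F) :
    ∃ N : ℕ, ∀ n ≥ N, A.valuation (x ^ n * y) < 1 := by
  obtain ⟨N, hN⟩ := arch hF A hA.2 x ((ValuationSubring.mem_nonunits_iff _).2 hx) hx0 y
  exact ⟨N, fun n hn => (ValuationSubring.mem_nonunits_iff _).1 (hN n hn)⟩

/-- uniform version for finitely many places and elements -/
theorem arch_fin (hF : FF k F) {ι : Type} (A : ι → ValuationSubring F) (hA : ∀ i, IsPlace k (A i))
    (S : Finset ι) (Y : Finset F) {x : F} (hx : ∀ i ∈ S, (A i).valuation x < 1) (hx0 : x ≠ 0) :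
    ∃ N : ℕ, ∀ n ≥ N, ∀ i ∈ S, ∀ y ∈ Y, (A i).valuation (x ^ n * y) < 1 := by
  classical
  have h1 : ∀ i : ι, ∀ y : F, ∃ N : ℕ, i ∈ S → ∀ n ≥ N, (A i).valuation (x ^ n * y) < 1 := by
    intro i y
    by_cases hi : i ∈ S
    · obtain ⟨N, hN⟩ := arch' hF (A i) (hA i) (hx i hi) hx0 y
      exact ⟨N, fun _ => hN⟩
    · exact ⟨0, fun h => absurd h hi⟩
  choose N hN using h1
  refine ⟨S.sup fun i => Y.sup fun y => N i y, fun n hn i hi y hy => hN i y hi n ?_⟩
  have h2 : N i y ≤ Y.sup fun y => N i y := Finset.le_sup (f := fun y => N i y) hy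
  have h3 : (Y.sup fun y => N i y) ≤ S.sup fun i => Y.sup fun y => N i y :=
    Finset.le_sup (f := fun i => Y.sup fun y => N i y) hi
  exact (h2.trans h3).trans hn

theorem step2 (hF : FF k F) {ι : Type} (A : ι → ValuationSubring F) (hA : ∀ i, IsPlace k (A i))
    (hinj : Function.Injective A) (i₀ : ι) (S : Finset ι) (hS : i₀ ∉ S) :
    ∃ x : F, 1 < (A i₀).valuation x ∧ ∀ i ∈ S, (A i).valuation x < 1 := by
  classical
  induction S using Finset.induction_on with
  | empty =>
    have h1 : ∃ x : F, x ∉ A i₀ := by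
      by_contra hcon
      push Not at hcon
      exact (hA i₀).1 (SetLike.ext fun x => ⟨fun _ => ValuationSubring.mem_top x, fun _ => hcon x⟩)
    obtain ⟨x, hx⟩ := h1
    rw [← ValuationSubring.valuation_le_one_iff, not_le] at hx
    exact ⟨x, hx, fun i hi => absurd hi (Finset.notMem_empty i)⟩
  | insert j S hj ih =>
    have hi0 : i₀ ≠ j := fun h => hS (h ▸ Finset.mem_insert_self j S)
    obtain ⟨x, hx, hxS⟩ := ih fun h => hS (Finset.mem_insert_of_mem h)
    obtain ⟨y, hy, hyj⟩ := step1 hF (A i₀) (A j) (hA i₀) (hA j) fun h => hi0 (hinj h)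
    have hx0 := ne_zero_of_big _ hx
    obtain ⟨N, hN⟩ := arch_fin hF A hA S {y} hxS hx0
    have hN' := hN (N + 1) (by omega)
    rcases lt_trichotomy ((A j).valuation x) 1 with h | h | h
    · refine ⟨x, hx, fun i hi => ?_⟩
      rcases Finset.mem_insert.1 hi with rfl | hi
      · exact h
      · exact hxS i hi
    · refine ⟨x ^ (N + 1) * y, ?_, fun i hi => ?_⟩
      · rw [map_mul, map_pow]
        exact one_lt_mul_of_le_of_lt (one_le_pow₀ hx.le) hy
      · rcases Finset.mem_insert.1 hi with rfl | hi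
        · rw [map_mul, map_pow, h, one_pow, one_mul]
          exact hyj
        · exact hN' i hi y (Finset.mem_singleton_self y)
    · refine ⟨x ^ (N + 1) / (1 + x ^ (N + 1)) * y, ?_, fun i hi => ?_⟩
      · rw [map_mul, (frac_big _ hx (Nat.succ_ne_zero N)).1, one_mul]
        exact hy
      · rcases Finset.mem_insert.1 hi with rfl | hi
        · rw [map_mul, (frac_big _ h (Nat.succ_ne_zero N)).1, one_mul]
          exact hyj
        · rw [frac_small _ (hxS i hi) (Nat.succ_ne_zero N)]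
          exact hN' i hi y (Finset.mem_singleton_self y)

end WApprox

open WApprox

theorem weak_approx {k F : Type} [Field k] [IsAlgClosed k] [Field F] [Algebra k F] (hF : FF k F)
    {ι : Type} [Finite ι] (A : ι → ValuationSubring F) (hA : ∀ i, IsPlace k (A i))
    (hinj : Function.Injective A) (i₀ : ι) (Y : Finset F) :
    ∃ θ : F, (∀ y ∈ Y, (θ - 1) * y ∈ (A i₀).nonunits) ∧
      ∀ i, i ≠ i₀ → ∀ y ∈ Y, θ * y ∈ (A i).nonunits := by
  classical
  have := Fintype.ofFinite ι
  obtain ⟨x, hx, hxS⟩ := step2 hF A hA hinj i₀ (Finset.univ.erase i₀) (Finset.notMem_erase _ _)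
  have hx0 := ne_zero_of_big _ hx
  obtain ⟨N, hN⟩ := arch_fin hF A hA (Finset.univ.erase i₀) Y hxS hx0
  obtain ⟨M, hM⟩ := arch_fin hF A hA {i₀} Y (x := x⁻¹)
    (fun i hi => by rw [Finset.mem_singleton.1 hi]; exact inv_small _ hx) (inv_ne_zero hx0)
  have hn : N + M + 1 ≠ 0 := by omega
  refine ⟨x ^ (N + M + 1) / (1 + x ^ (N + M + 1)), fun y hy => ?_, fun i hi y hy => ?_⟩
  · rw [ValuationSubring.mem_nonunits_iff, (frac_big _ hx hn).2.2 y]
    exact hM _ (by omega) i₀ (Finset.mem_singleton_self i₀) y hy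
  · have hi' : i ∈ Finset.univ.erase i₀ := Finset.mem_erase.2 ⟨hi, Finset.mem_univ i⟩
    rw [ValuationSubring.mem_nonunits_iff, frac_small _ (hxS i hi') hn]
    exact hN _ (by omega) i hi' y hy

end Pool.Agent.Helper54.PW
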